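import Pool.Agent.H45R3.UG.FA

/-!
# Just non virtually nilpotent quotients
-/

set_option autoImplicit false

namespace Pool.Agent.Q220.GR

open scoped commutatorElement

/-- `G` has a nilpotent subgroup of finite index. -/
def VN (G : Type) [Group G] : Prop := ∃ H : Subgroup G, H.FiniteIndex ∧ Group.IsNilpotent H

/-- A criterion for the quotient by `K`. -/
def VQ {G : Type} [Group G] (K : Subgroup G) : Prop :=
  ∃ H : Subgroup G, K ≤ H ∧ H.FiniteIndex ∧ ∃ c : ℕ, H.lowerCentralSeries c ≤ K

lemma vn_iff {G Q : Type} [Group G] [Group Q] (f : G →* Q) (hf : Function.Surjective f) :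
    VN Q ↔ VQ f.ker := by
  constructor
  · rintro ⟨H, hH, hn⟩
    obtain ⟨c, hc⟩ := H.isNilpotent_iff_lowerCentralSeries.1 hn
    refine ⟨H.comap f, ?_, ⟨by
      rw [Subgroup.index_comap_of_surjective _ hf]
      exact hH.index_ne_zero⟩, c, ?_⟩
    · intro x hx
      rw [Subgroup.mem_comap, (MonoidHom.mem_ker).1 hx]
      exact H.one_mem
    · intro x hx
      rw [MonoidHom.mem_ker, ← Subgroup.mem_bot, ← hc]
      have h1 : f x ∈ ((H.comap f).lowerCentralSeries c).map f := ⟨x, hx, rfl⟩
      rw [Subgroup.map_lowerCentralSeries, Subgroup.map_comap_eq_self_of_surjective hf] at h1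
      exact h1
  · rintro ⟨H, hKH, hH, c, hc⟩
    refine ⟨H.map f, ⟨?_⟩, ?_⟩
    · have h1 : (H.map f).index ∣ H.index := Subgroup.index_map_dvd H hf
      intro h0
      rw [h0] at h1
      exact hH.index_ne_zero (Nat.eq_zero_of_zero_dvd h1)
    · rw [Subgroup.isNilpotent_iff_lowerCentralSeries]
      refine ⟨c, ?_⟩
      rw [← Subgroup.map_lowerCentralSeries, Subgroup.map_eq_bot_iff]
      exact hc

lemma lcs_fin {G : Type} [Group G] (H : Subgroup G) [H.Normal] (hfg : H.FG) (c : ℕ) :
    ∃ S : Finset G, (∀ s ∈ S, s ∈ H.lowerCentralSeries c) ∧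
      ∀ K : Subgroup G, K.Normal → (∀ s ∈ S, s ∈ K) → H.lowerCentralSeries c ≤ K := by
  classical
  obtain ⟨X, hX⟩ := hfg
  induction c with
  | zero =>
    refine ⟨X, fun s hs => ?_, fun K _ hK => ?_⟩
    · rw [Subgroup.lowerCentralSeries_zero, ← hX]
      exact Subgroup.subset_closure hs
    · rw [Subgroup.lowerCentralSeries_zero, ← hX, Subgroup.closure_le]
      exact fun s hs => hK s hs
  | succ c ih =>
    obtain ⟨S, h1, h2⟩ := ih
    refine ⟨(S ×ˢ X).image fun q => ⁅q.1, q.2⁆, ?_, ?_⟩
    · intro s hs
      obtain ⟨q, hq, rfl⟩ := Finset.mem_image.1 hs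
      rw [Finset.mem_product] at hq
      rw [Subgroup.lowerCentralSeries_succ]
      refine Subgroup.commutator_mem_commutator (h1 _ hq.1) ?_
      rw [← hX]
      exact Subgroup.subset_closure hq.2
    · intro K hK hS
      let π : G →* G ⧸ K := QuotientGroup.mk' K
      have hπ : Function.Surjective π := QuotientGroup.mk'_surjective K
      have hHn : (H.map π).Normal := Subgroup.Normal.map inferInstance π hπ
      let Z : Subgroup G := (Subgroup.centralizer (H.map π : Set (G ⧸ K))).comap π
      have hZ : Z.Normal := by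
        have : (Subgroup.centralizer (H.map π : Set (G ⧸ K))).Normal := inferInstance
        exact this.comap π
      have hSZ : ∀ s ∈ S, s ∈ Z := by
        intro s hs
        show π s ∈ Subgroup.centralizer (H.map π : Set (G ⧸ K))
        have h3 : H.map π ≤ Subgroup.centralizer {π s} := by
          rw [Subgroup.map_le_iff_le_comap, ← hX, Subgroup.closure_le]
          intro x hx
          rw [SetLike.mem_coe, Subgroup.mem_comap, Subgroup.mem_centralizer_singleton_iff]
          have h4 : π ⁅s, x⁆ = 1 := (QuotientGroup.eq_one_iff _).2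
            (hS _ (Finset.mem_image.2 ⟨(s, x), Finset.mem_product.2 ⟨hs, hx⟩, rfl⟩))
          rw [map_commutatorElement] at h4
          exact (commutatorElement_eq_one_iff_commute.1 h4).symm.eq
        rw [Subgroup.mem_centralizer_iff]
        intro y hy
        have := h3 hy
        rw [Subgroup.mem_centralizer_singleton_iff] at this
        exact this
      have h5 := h2 Z hZ hSZ
      rw [Subgroup.lowerCentralSeries_succ, Subgroup.commutator_le]
      intro g hg h hh
      rw [← QuotientGroup.eq_one_iff]
      show π ⁅g, h⁆ = 1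
      rw [map_commutatorElement, commutatorElement_eq_one_iff_commute]
      have h6 := h5 hg
      rw [Subgroup.mem_comap, Subgroup.mem_centralizer_iff] at h6
      exact (h6 (π h) ⟨h, hh, rfl⟩).symm

/-- Not virtually nilpotent, but all quotients by nontrivial normal subgroups are. -/
def JNVN (G : Type) [Group G] : Prop :=
  ¬ VN G ∧ ∀ (N : Subgroup G) [N.Normal], N ≠ ⊥ → VN (G ⧸ N)

theorem exists_jnvn {G : Type} [Group G] (hfg : Group.FG G) (hG : ¬ VN G) :
    ∃ (N : Subgroup G) (_ : N.Normal), JNVN (G ⧸ N) := by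
  classical
  let S : Set (Subgroup G) := {N | N.Normal ∧ ¬ VQ N}
  have hbot : (⊥ : Subgroup G) ∈ S := by
    refine ⟨inferInstance, fun h => hG ?_⟩
    have h1 := (vn_iff (MonoidHom.id G) Function.surjective_id).2
    rw [MonoidHom.ker_id] at h1
    exact h1 h
  obtain ⟨m, -, hm⟩ := zorn_le_nonempty₀ S (by
    intro C hC hchain y hy
    have hdir : DirectedOn (· ≤ ·) C := hchain.directedOn
    have hne : C.Nonempty := ⟨y, hy⟩
    refine ⟨sSup C, ⟨?_, ?_⟩, fun z hz => le_sSup hz⟩
    · constructor
      intro x hx g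
      rw [Subgroup.mem_sSup_of_directedOn hne hdir] at hx ⊢
      obtain ⟨K, hK, hxK⟩ := hx
      exact ⟨K, hK, (hC hK).1.conj_mem x hxK g⟩
    · rintro ⟨H, hNH, hH, c, hc⟩
      have hNc : sSup C ≤ H.normalCore := by
        have hn : (sSup C).Normal := by
          constructor
          intro x hx g
          rw [Subgroup.mem_sSup_of_directedOn hne hdir] at hx ⊢
          obtain ⟨K, hK, hxK⟩ := hx
          exact ⟨K, hK, (hC hK).1.conj_mem x hxK g⟩
        exact Subgroup.normal_le_normalCore.2 hNH
      have hfg' : Group.FG H.normalCore := inferInstance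
      obtain ⟨T, hT1, hT2⟩ := lcs_fin H.normalCore
        ((Group.fg_iff_subgroup_fg _).1 hfg') c
      have hTC : ∀ s ∈ T, s ∈ sSup C := fun s hs =>
        hc (Subgroup.lowerCentralSeries_mono c H.normalCore_le (hT1 s hs))
      have hex : ∃ K ∈ C, ∀ s ∈ T, s ∈ K := by
        clear hT1 hT2
        induction T using Finset.induction_on with
        | empty => exact ⟨y, hy, by simp⟩
        | insert a T _ ih =>
          obtain ⟨K, hK, hTK⟩ := ih (fun s hs => hTC s (Finset.mem_insert_of_mem hs))
          have ha := hTC a (Finset.mem_insert_self a T)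
          rw [Subgroup.mem_sSup_of_directedOn hne hdir] at ha
          obtain ⟨K', hK', haK⟩ := ha
          obtain ⟨K'', hK'', h1, h2⟩ := hdir K hK K' hK'
          refine ⟨K'', hK'', fun s hs => ?_⟩
          rcases Finset.mem_insert.1 hs with rfl | hs
          · exact h2 haK
          · exact h1 (hTK s hs)
      obtain ⟨K, hK, hTK⟩ := hex
      refine (hC hK).2 ⟨H.normalCore, (le_sSup hK).trans hNc, inferInstance, c, ?_⟩
      exact hT2 K (hC hK).1 hTK) ⊥ hbot
  have hmn : m.Normal := hm.prop.1
  refine ⟨m, hmn, ?_, ?_⟩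
  · intro h
    have h1 := (vn_iff (QuotientGroup.mk' m) (QuotientGroup.mk'_surjective m)).1 h
    rw [QuotientGroup.ker_mk'] at h1
    exact hm.prop.2 h1
  · intro N hN hN0
    let f : G →* (G ⧸ m) ⧸ N := (QuotientGroup.mk' N).comp (QuotientGroup.mk' m)
    have hf : Function.Surjective f :=
      (QuotientGroup.mk'_surjective N).comp (QuotientGroup.mk'_surjective m)
    rw [vn_iff f hf]
    by_contra hcon
    have hle : m ≤ f.ker := by
      intro x hx
      rw [MonoidHom.mem_ker]
      show (QuotientGroup.mk' N) (QuotientGroup.mk' m x) = 1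
      have : QuotientGroup.mk' m x = 1 := (QuotientGroup.eq_one_iff _).2 hx
      rw [this, map_one]
    have h2 : f.ker ≤ m := hm.le_of_ge ⟨inferInstance, hcon⟩ hle
    apply hN0
    rw [eq_bot_iff]
    intro q hq
    obtain ⟨x, rfl⟩ := QuotientGroup.mk'_surjective m q
    have h3 : x ∈ f.ker := by
      rw [MonoidHom.mem_ker]
      exact (QuotientGroup.eq_one_iff _).2 hq
    rw [Subgroup.mem_bot]
    exact (QuotientGroup.eq_one_iff _).2 (h2 h3)

end Pool.Agent.Q220.GR
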